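import Pool.Agent.L0h45.AR.Stm

set_option autoImplicit false

namespace Pool.Agent.L0h95.AR

open Pool.Agent.L0h45.AR

theorem mw : S_MW := by
  intro G _ hG
  classical
  have : Module.Finite ℤ G := Module.Finite.iff_addGroup_fg.mpr hG
  have : Module.Free ℤ (G ⧸ Submodule.torsion ℤ G) := inferInstance
  have hr : Module.finrank ℤ (G ⧸ Submodule.torsion ℤ G) = Module.finrank ℤ G :=
    finrank_quotient_eq_of_le_torsion le_rfl
  let b := Module.finBasis ℤ (G ⧸ Submodule.torsion ℤ G)
  choose g hg using fun i => Submodule.mkQ_surjective (Submodule.torsion ℤ G) (b i)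
  let f : Finset (Fin (Module.finrank ℤ (G ⧸ Submodule.torsion ℤ G))) → G := fun T => ∑ i ∈ T, g i
  have hrep : ∀ (T : Finset (Fin (Module.finrank ℤ (G ⧸ Submodule.torsion ℤ G)))) i,
      b.repr ((Submodule.torsion ℤ G).mkQ (f T)) i = if i ∈ T then 1 else 0 := by
    intro T i
    simp only [f, map_sum, hg, Module.Basis.repr_self]
    rw [Finsupp.finsetSum_apply]
    simp [Finsupp.single_apply]
  have main : ∀ T T' (c : G), c + c + f T' = f T → T = T' := by
    intro T T' c h
    have h1 := congrArg (fun z => b.repr ((Submodule.torsion ℤ G).mkQ z)) h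
    ext i
    have h2 := DFunLike.congr_fun h1 i
    simp only [map_add, Finsupp.add_apply] at h2
    rw [hrep, hrep] at h2
    generalize (b.repr ((Submodule.torsion ℤ G).mkQ c)) i = z at h2
    split_ifs at h2 with h3 h4 h4
    · exact ⟨fun _ => h3, fun _ => h4⟩
    · omega
    · omega
    · exact ⟨fun h => absurd h h4, fun h => absurd h h3⟩
  refine ⟨Finset.univ.image f, ?_, ?_⟩
  · rw [Finset.card_image_of_injective, Finset.card_univ, Fintype.card_finset, Fintype.card_fin, hr]
    intro T T' h
    exact main T T' 0 (by simpa using h.symm)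
  · intro x hx y hy hne c hc
    obtain ⟨T, -, rfl⟩ := Finset.mem_image.mp hx
    obtain ⟨T', -, rfl⟩ := Finset.mem_image.mp hy
    exact hne (by rw [main T T' c hc])

end Pool.Agent.L0h95.AR
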