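import Pool.Agent.L0h45.AR.Stm

set_option autoImplicit false

open Polynomial

namespace Pool.Agent.L0h95.AR

open Pool.Agent.L0h45.AR

/-- the covariant, up to the determinant -/
theorem cov {R : Type} [CommRing R] (a b c d e p q r s : R) :
    3 * ((Q4.sub ⟨a, b, c, d, e⟩ p q r s).b) ^ 2 -
      8 * (Q4.sub ⟨a, b, c, d, e⟩ p q r s).a * (Q4.sub ⟨a, b, c, d, e⟩ p q r s).c =
    (p * s - q * r) ^ 2 * ((3 * b ^ 2 - 8 * a * c) * p ^ 4 + 4 * (b * c - 6 * a * d) * p ^ 3 * r +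
      2 * (2 * c ^ 2 - 24 * a * e - 3 * b * d) * p ^ 2 * r ^ 2 + 4 * (c * d - 6 * b * e) * p * r ^ 3 +
      (3 * d ^ 2 - 8 * c * e) * r ^ 4) := by
  simp only [Q4.sub]
  ring

/-- the basic identity -/
theorem key {R : Type} [CommRing R] (a b c d e p r f : R)
    (hf : f ^ 3 - 3 * (12 * a * e - 3 * b * d + c ^ 2) * f +
      (72 * a * c * e + 9 * b * c * d - 27 * a * d ^ 2 - 27 * e * b ^ 2 - 2 * c ^ 3) = 0) :
    9 * (4 * a * f + 3 * b ^ 2 - 8 * a * c) *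
      (4 * f * (a * p ^ 4 + b * p ^ 3 * r + c * p ^ 2 * r ^ 2 + d * p * r ^ 3 + e * r ^ 4) +
      ((3 * b ^ 2 - 8 * a * c) * p ^ 4 + 4 * (b * c - 6 * a * d) * p ^ 3 * r +
      2 * (2 * c ^ 2 - 24 * a * e - 3 * b * d) * p ^ 2 * r ^ 2 + 4 * (c * d - 6 * b * e) * p * r ^ 3 +
      (3 * d ^ 2 - 8 * c * e) * r ^ 4)) =
    (3 * (4 * a * f + 3 * b ^ 2 - 8 * a * c) * p ^ 2 + 6 * (f * b + b * c - 6 * a * d) * p * r +
      (-2 * f ^ 2 + 2 * c * f + 4 * c ^ 2 - 9 * b * d) * r ^ 2) ^ 2 := by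
  linear_combination (-(4 * r ^ 4 * f - 4 * r ^ 2 * (12 * a * p ^ 2 + 6 * b * p * r + 2 * c * r ^ 2))) * hf

theorem eqv : S_EQV := by
  intro A B F G hI hJ hFG
  obtain ⟨p, q, r, s, hdet, rfl⟩ := hFG
  obtain ⟨a, b, c, d, e⟩ := F
  have hroot : (th A B) ^ 3 + (A : Alg A B) * th A B + (B : Alg A B) = 0 := by
    have h : eval₂ (AdjoinRoot.of (cub A B)) (th A B) (X ^ 3 + C (A : ℚ) * X + C (B : ℚ)) = 0 :=
      AdjoinRoot.eval₂_root (cub A B)
    simp only [eval₂_add, eval₂_mul, eval₂_pow, eval₂_X, eval₂_C] at h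
    simpa only [map_intCast] using h
  have hI' : 12 * (a : Alg A B) * e - 3 * b * d + (c : Alg A B) ^ 2 = -48 * A := by
    have := congrArg (fun z : ℤ => (z : Alg A B)) hI
    simpa [Q4.I] using this
  have hJ' : 72 * (a : Alg A B) * c * e + 9 * b * c * d - 27 * a * d ^ 2 - 27 * e * b ^ 2 -
      2 * (c : Alg A B) ^ 3 = -1728 * B := by
    have := congrArg (fun z : ℤ => (z : Alg A B)) hJ
    simpa [Q4.J] using this
  have hdet' : (p : Alg A B) * s - q * r = 1 := by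
    have := congrArg (fun z : ℤ => (z : Alg A B)) hdet
    simpa using this
  set t : Alg A B := th A B with ht
  have hf : (-12 * t) ^ 3 - 3 * (12 * (a : Alg A B) * e - 3 * b * d + c ^ 2) * (-12 * t) +
      (72 * (a : Alg A B) * c * e + 9 * b * c * d - 27 * a * d ^ 2 - 27 * e * b ^ 2 - 2 * c ^ 3) = 0 := by
    rw [hI', hJ']
    linear_combination (-1728) * hroot
  have hk := key (R := Alg A B) a b c d e p r (-12 * t) hf
  have hc := cov (R := Alg A B) a b c d e p q r s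
  rw [hdet', one_pow, one_mul] at hc
  rw [← hc] at hk
  obtain ⟨u, hu⟩ : ∃ u : Alg A B, 9 * u = 1 := ⟨AdjoinRoot.of (cub A B) (1 / 9), by
    have : (9 : Alg A B) = AdjoinRoot.of (cub A B) 9 := (map_ofNat (AdjoinRoot.of (cub A B)) 9).symm
    rw [this, ← map_mul]; norm_num⟩
  -- the two numbers
  have hz : ∀ F : Q4 ℤ, zz A B F = 3 * u * (4 * (F.a : Alg A B) * (-12 * t) + 3 * (F.b : Alg A B) ^ 2 -
      8 * (F.a : Alg A B) * (F.c : Alg A B)) := by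
    intro F
    have h1 : 3 * AdjoinRoot.of (cub A B) (8 / 3 * ((F.a : ℚ) * (F.c : ℚ))) =
        8 * (F.a : Alg A B) * (F.c : Alg A B) := by
      have h3 : (3 : Alg A B) = AdjoinRoot.of (cub A B) 3 := (map_ofNat (AdjoinRoot.of (cub A B)) 3).symm
      rw [h3, ← map_mul]
      have : (3 : ℚ) * (8 / 3 * ((F.a : ℚ) * (F.c : ℚ))) = 8 * F.a * F.c := by ring
      rw [this, map_mul, map_mul, map_intCast, map_intCast, map_ofNat]
    simp only [zz]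
    push_cast
    linear_combination (-(F.b : Alg A B) ^ 2 + AdjoinRoot.of (cub A B) (8 / 3 * ((F.a : ℚ) * (F.c : ℚ))) +
      16 * (F.a : Alg A B) * t) * hu - 3 * u * h1
  refine ⟨u * (3 * (4 * (a : Alg A B) * (-12 * t) + 3 * (b : Alg A B) ^ 2 - 8 * a * c) * (p : Alg A B) ^ 2 +
      6 * (-12 * t * b + b * c - 6 * a * d) * p * r +
      (-2 * (-12 * t) ^ 2 + 2 * c * (-12 * t) + 4 * (c : Alg A B) ^ 2 - 9 * b * d) * (r : Alg A B) ^ 2), ?_⟩
  rw [hz, hz]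
  have hG1 : (((Q4.sub ⟨a, b, c, d, e⟩ p q r s : Q4 ℤ).a : ℤ) : Alg A B) =
      (Q4.sub (R := Alg A B) ⟨a, b, c, d, e⟩ p q r s).a := by simp [Q4.sub]
  have hG2 : (((Q4.sub ⟨a, b, c, d, e⟩ p q r s : Q4 ℤ).b : ℤ) : Alg A B) =
      (Q4.sub (R := Alg A B) ⟨a, b, c, d, e⟩ p q r s).b := by simp [Q4.sub]
  have hG3 : (((Q4.sub ⟨a, b, c, d, e⟩ p q r s : Q4 ℤ).c : ℤ) : Alg A B) =
      (Q4.sub (R := Alg A B) ⟨a, b, c, d, e⟩ p q r s).c := by simp [Q4.sub]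
  rw [hG1, hG2, hG3]
  have hGa : (Q4.sub (R := Alg A B) ⟨a, b, c, d, e⟩ p q r s).a =
      (a : Alg A B) * p ^ 4 + b * p ^ 3 * r + c * p ^ 2 * r ^ 2 + d * p * r ^ 3 + e * r ^ 4 := by
    simp [Q4.sub]
  rw [← hGa] at hk
  linear_combination (u ^ 2) * hk

end Pool.Agent.L0h95.AR
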